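import Pool.Agent.Helper25.SH.MatU

/-!
# The matrix check in parts

The check `Helper25.SH.Mat.ok` for the rows `lo ≤ i < hi` only (all columns `j ≥ i`): several kernel declarations with small
memory instead of one.
-/

set_option autoImplicit false

namespace Helper60.SH

open Helper54.RC.Fast Helper76.RC.TPoly Helper25.SH.Dot Helper25.SH.Mat Helper95.SH Helper54.RC

/-- the rows of `U` (a part) against the columns of `V` -/
def outP (b s M e T : ℕ) : List ℕ → List ℕ → List ℕ → List ℕ → Bool
  | [], _, _, _ => true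
  | X :: U, Y :: V, P :: Ps, D :: Ds =>
    bif dia b T P D (mid s M X Y) then (bif inn s M e X V then outP b s M e T U V Ps Ds else false) else false
  | _, _, _, _ => false

/-- the rows `lo ≤ i < hi` -/
def okP1 (b mm e T n : ℕ) (P D : List ℕ) (U V : List ℕ) (K lo hi : ℕ) : Bool :=
  outP b (Nat.mul (Nat.succ b) (Nat.pred n)) (Nat.pow 2 (Nat.succ b)) e T
    (ru (Nat.sub (Nat.pow 2 (Nat.mul (Nat.succ b) n)) (Nat.mod K (Nat.pow 2 (Nat.mul (Nat.succ b) n))))
      (Nat.pow 2 (Nat.mul (Nat.succ b) n)) (List.take (Nat.sub hi lo) (List.drop lo U)))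
    (rv (Nat.succ b) mm (Nat.mul (Nat.succ b) (Nat.sub (Nat.pow 2 mm) n)) (mks (Nat.succ b) mm 1)
      (Nat.sub (Nat.pow 2 (Nat.mul (Nat.succ b) n)) (of b n)) (Nat.pow 2 (Nat.mul (Nat.succ b) n)) (List.drop lo V))
    (List.drop lo P) (List.drop lo D)
/-- **the check of the rows** `lo ≤ i < hi` -/
def okP (b mm N e T : ℕ) (L : List Blk) (P D : List ℕ) (lo hi : ℕ) : Bool :=
  okP1 b mm e T (nd L) P D (uu b N L) (vv b N L) (kk b L) lo hi

/-- lengths and the bound of the digits -/
def ok01 (b r N n : ℕ) (U V : List ℕ) : Bool :=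
  bif Nat.beq U.length N then
    bif Nat.beq V.length N then
      okd (Nat.mul (Nat.sub (Nat.pow 2 b) (Nat.pow 2 r)) (on b n))
        (Nat.mul (Nat.sub (Nat.pow 2 (Nat.succ b)) (Nat.pow 2 (Nat.succ r))) (on b n)) V
    else false
  else false
/-- **the common part of the check** -/
def ok0 (b r mm N e : ℕ) (L : List Blk) : Bool :=
  bif Nat.ble (Nat.succ (Nat.mul (wt L) (Nat.pow 2 (Nat.mul 2 r)))) (Nat.pow 2 b) then
    bif Nat.ble (nd L) (Nat.pow 2 mm) then
      bif Nat.ble 1 (nd L) then
        bif Nat.ble (Nat.succ r) b then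
          bif Nat.ble (Nat.succ e) (Nat.pow 2 b) then ok01 b r N (nd L) (uu b N L) (vv b N L) else false
        else false
      else false
    else false
  else false

theorem outP_spec {b s M e T : ℕ} {U V P D : List ℕ} (h : outP b s M e T U V P D = true) :
    U.length ≤ V.length ∧
      (∀ i < U.length, dia b T (P.getD i 0) (D.getD i 0) (mid s M (U.getD i 0) (V.getD i 0)) = true) ∧
      (∀ i < U.length, ∀ j, i < j → j < V.length → (mid s M (U.getD i 0) (V.getD j 0) + e) % M ≤ 2 * e) := by
  induction U generalizing V P D with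
  | nil => exact ⟨Nat.zero_le _, fun i hi => by simp at hi, fun i hi => by simp at hi⟩
  | cons X U ih =>
    cases V with
    | nil => cases P <;> cases D <;> simp [outP] at h
    | cons Y V =>
      cases P with
      | nil => cases D <;> simp [outP] at h
      | cons p P =>
        cases D with
        | nil => simp [outP] at h
        | cons d D =>
          simp only [outP, Bool.cond_false_right, Bool.and_eq_true] at h
          obtain ⟨h1, h2, h3⟩ := h
          obtain ⟨i1, i2, i3⟩ := ih h3
          refine ⟨by simpa using i1, ?_, ?_⟩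
          · intro i hi
            cases i with
            | zero => exact h1
            | succ i => exact i2 i (by simpa using hi)
          · intro i hi j hij hj
            cases j with
            | zero => omega
            | succ j =>
              have hj' : j < V.length := by simpa using hj
              cases i with
              | zero => exact Helper25.SH.Mat.inn_spec s M e X V h2 j hj'
              | succ i => exact i3 i (by simpa using hi) j (by omega) hj'

/-- the rows `lo ≤ i < hi` have passed the check -/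
def Rows (b mm N e T : ℕ) (L : List Blk) (P D : List ℕ) (lo hi : ℕ) : Prop :=
  ∀ i, lo ≤ i → i < hi → ∃ l h, l ≤ i ∧ i < h ∧ okP b mm N e T L P D l h = true

theorem rows_one {b mm N e T : ℕ} {L : List Blk} {P D : List ℕ} {lo hi : ℕ} (h : okP b mm N e T L P D lo hi = true) :
    Rows b mm N e T L P D lo hi := fun _ h1 h2 => ⟨lo, hi, h1, h2, h⟩

theorem Rows.trans {b mm N e T : ℕ} {L : List Blk} {P D : List ℕ} {lo mi hi : ℕ} (h : Rows b mm N e T L P D lo mi)
    (k : Rows b mm N e T L P D mi hi) : Rows b mm N e T L P D lo hi := by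
  intro i h1 h2
  rcases lt_or_ge i mi with h3 | h3
  · exact h i h1 h3
  · exact k i h3 h2

theorem getD_drop' (l : List ℕ) (n i : ℕ) : (List.drop n l).getD i 0 = l.getD (n + i) 0 := by
  simp [List.getD_eq_getElem?_getD]

theorem getD_take' (l : List ℕ) (n i : ℕ) (h : i < n) : (List.take n l).getD i 0 = l.getD i 0 := by
  simp [List.getD_eq_getElem?_getD, h]

/-- **soundness** -/
theorem sound_parts {b r mm N e T : ℕ} {L : List Blk} {P D : List ℕ} (h0 : ok0 b r mm N e L = true)
    (hR : Rows b mm N e T L P D 0 N) (v : ℕ → ℝ) :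
    ((T : ℝ) - N * (e + 1)) * sqv N v ≤ (L.map (Blk.val b N v)).sum + dgv N P D v := by
  simp only [ok0, ok01, Bool.cond_false_right, Bool.and_eq_true] at h0
  obtain ⟨h1, h2, h3, h4, h5, h7, h8, h6⟩ := h0
  have w1 : wt L * 2 ^ (2 * r) < 2 ^ b := Nat.le_of_ble_eq_true h1
  have w2 : nd L ≤ 2 ^ mm := Nat.le_of_ble_eq_true h2
  have w3 : 1 ≤ nd L := Nat.le_of_ble_eq_true h3
  have w4 : r < b := Nat.le_of_ble_eq_true h4
  have w5 : e < 2 ^ b := Nat.le_of_ble_eq_true h5
  have w7 : (uu b N L).length = N := Nat.eq_of_beq_eq_true h7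
  have w8 : (vv b N L).length = N := Nat.eq_of_beq_eq_true h8
  have hpow : Nat.pow 2 (Nat.mul (Nat.succ b) (nd L)) = (2 ^ (b + 1)) ^ nd L := by
    show 2 ^ ((b + 1) * nd L) = _
    rw [pow_mul]
  -- bounds of the digits
  have hdig : ∀ i < N, ∀ c ∈ vL b i L, c.natAbs ≤ 2 ^ r := by
    intro i hi c hc
    have hi' : i < (vv b N L).length := by omega
    obtain ⟨l1, l2⟩ := vv_ls b N L i hi'
    obtain ⟨k1, k2⟩ := okd_spec _ _ _ h6 i hi'
    have hon : on b (nd L) = gs (2 ^ (b + 1)) (nd L) := on_eq _ _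
    rw [hon] at k1 k2
    have key := okd_digit b r (nd L) _ w4 l2 k1 k2
    rw [← l1] at hc
    obtain ⟨j, hj, rfl⟩ := List.mem_iff_getElem.1 hc
    have hj' : j < nd L := by rwa [length_ls] at hj
    have h9 := ls_getD b (nd L) ((vv b N L).getD i 0) j hj'
    rw [List.getD_eq_getElem _ _ hj] at h9
    rw [h9]
    have := key j hj'
    rw [Int.abs_eq_natAbs] at this
    exact_mod_cast this
  set KU : ℕ := (2 ^ (b + 1)) ^ nd L - kk b L % (2 ^ (b + 1)) ^ nd L with hKU
  set KV : ℕ := (2 ^ (b + 1)) ^ nd L - of b (nd L) with hKV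
  set MM : ℕ := (2 ^ (b + 1)) ^ nd L with hMM
  set sh : ℕ := (b + 1) * (2 ^ mm - nd L) with hsh
  have hent : ∀ i < N, ∀ j < N, ∃ d : ℤ, (d = 0 ∨ d = 1) ∧
      ((mid ((b + 1) * (nd L - 1)) (2 ^ (b + 1))
        ((ru KU MM (uu b N L)).getD i 0)
        ((rv (b + 1) mm sh (mks (b + 1) mm 1) KV MM (vv b N L)).getD j 0) : ℕ) : ℤ) ≡
          gL b i j L - d [ZMOD ((2 ^ (b + 1) : ℕ) : ℤ)] ∧
      |gL b i j L| < (2 ^ b : ℕ) := by
    intro i hi j hj
    exact entry w2 w3 w1 (by omega) (by omega) (hdig i hi) (hdig j hj) _ _ (ru_getD _ _ _ _ (by omega))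
      (rv_getD _ _ _ _ _ _ _ _ (by omega))
  -- the rows
  have hrow : ∀ i < N,
      dia b T (P.getD i 0) (D.getD i 0) (mid ((b + 1) * (nd L - 1)) (2 ^ (b + 1))
        ((ru KU MM (uu b N L)).getD i 0)
        ((rv (b + 1) mm sh (mks (b + 1) mm 1) KV MM (vv b N L)).getD i 0)) = true ∧
      ∀ j, i < j → j < N → (mid ((b + 1) * (nd L - 1)) (2 ^ (b + 1))
        ((ru KU MM (uu b N L)).getD i 0)
        ((rv (b + 1) mm sh (mks (b + 1) mm 1) KV MM (vv b N L)).getD j 0) + e) % 2 ^ (b + 1) ≤ 2 * e := by
    intro i hi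
    obtain ⟨lo, hi', l1, l2, hP⟩ := hR i (Nat.zero_le _) hi
    obtain ⟨q, rfl⟩ : ∃ q, i = lo + q := ⟨i - lo, by omega⟩
    unfold okP okP1 at hP
    rw [hpow] at hP
    obtain ⟨o1, o2, o3⟩ := outP_spec hP
    have hq : q < hi' - lo := by omega
    have lU : (List.take (Nat.sub hi' lo) (List.drop lo (uu b N L))).length = min (hi' - lo) (N - lo) := by
      rw [List.length_take, List.length_drop, w7]
      rfl
    have hqU : q < (List.take (Nat.sub hi' lo) (List.drop lo (uu b N L))).length := by rw [lU]; omega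
    have hqV : ∀ p, lo + p < N → p < (List.drop lo (vv b N L)).length := by
      intro p hp
      rw [List.length_drop, w8]
      omega
    have eU : (ru KU MM (List.take (Nat.sub hi' lo) (List.drop lo (uu b N L)))).getD q 0 =
        (ru KU MM (uu b N L)).getD (lo + q) 0 := by
      rw [ru_getD _ _ _ _ hqU, ru_getD _ _ _ _ (by omega : lo + q < (uu b N L).length),
        getD_take' _ _ _ (show q < Nat.sub hi' lo from hq), getD_drop']
    have eV : ∀ p, lo + p < N →
        (rv (b + 1) mm sh (mks (b + 1) mm 1) KV MM (List.drop lo (vv b N L))).getD p 0 =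
        (rv (b + 1) mm sh (mks (b + 1) mm 1) KV MM (vv b N L)).getD (lo + p) 0 := by
      intro p hp
      rw [rv_getD _ _ _ _ _ _ _ _ (hqV p hp), rv_getD _ _ _ _ _ _ _ _ (by omega : lo + p < (vv b N L).length),
        getD_drop']
    have hqU' : q < (ru KU MM (List.take (Nat.sub hi' lo) (List.drop lo (uu b N L)))).length := by
      rw [ru_length]; exact hqU
    constructor
    · have h := o2 q hqU'
      rw [getD_drop', getD_drop'] at h
      rw [← eU, ← eV q hi]
      exact h
    · intro j hj hjN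
      obtain ⟨p, rfl⟩ : ∃ p, j = lo + p := ⟨j - lo, by omega⟩
      have h := o3 q hqU' p (by omega) (by rw [rv_length]; exact hqV p hjN)
      rw [← eU, ← eV p hjN]
      exact h
  rw [← gL_val]
  refine Helper25.SH.Mat.form_ge (fun i j => gL b i j L) (fun i j => gL_symm b i j L) ?_ ?_ v
  · intro i j hij hj
    obtain ⟨d, hd, hm, hg⟩ := hent i (by omega) j hj
    exact off_bound hd w5 hm hg ((hrow i (by omega)).2 j hij hj)
  · intro i hi
    obtain ⟨d, hd, hm, hg⟩ := hent i hi i hi
    exact dia_bound hd hm hg (hrow i hi).1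

end Helper60.SH
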