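import Pool.Agent.Helper60.SH.MatP

/-!
# The matrix check in parts, second form

As `MatP.lean`, but the bound of the digits of the rows `lo ≤ i < hi` is checked in the part which evaluates these rows: the common
part `okC` evaluates no digits.
-/

set_option autoImplicit false

namespace Helper60.SH

open Helper54.RC.Fast Helper76.RC.TPoly Helper25.SH.Dot Helper25.SH.Mat Helper95.SH Helper54.RC

/-- bound of the digits and entries of the rows `lo ≤ i < hi` -/
def okQ1 (b r mm e T n : ℕ) (P D : List ℕ) (U V : List ℕ) (K lo hi : ℕ) : Bool :=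
  bif okd (Nat.mul (Nat.sub (Nat.pow 2 b) (Nat.pow 2 r)) (on b n))
      (Nat.mul (Nat.sub (Nat.pow 2 (Nat.succ b)) (Nat.pow 2 (Nat.succ r))) (on b n))
      (List.take (Nat.sub hi lo) (List.drop lo V)) then
    okP1 b mm e T n P D U V K lo hi
  else false
/-- **the check of the rows** `lo ≤ i < hi` -/
def okQ (b r mm N e T : ℕ) (L : List Blk) (P D : List ℕ) (lo hi : ℕ) : Bool :=
  okQ1 b r mm e T (nd L) P D (uu b N L) (vv b N L) (kk b L) lo hi

/-- **the common part of the check** -/
def okC (b r mm N e : ℕ) (L : List Blk) : Bool :=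
  bif Nat.ble (Nat.succ (Nat.mul (wt L) (Nat.pow 2 (Nat.mul 2 r)))) (Nat.pow 2 b) then
    bif Nat.ble (nd L) (Nat.pow 2 mm) then
      bif Nat.ble 1 (nd L) then
        bif Nat.ble (Nat.succ r) b then
          bif Nat.ble (Nat.succ e) (Nat.pow 2 b) then
            bif Nat.beq (List.length (uu b N L)) N then Nat.beq (List.length (vv b N L)) N else false
          else false
        else false
      else false
    else false
  else false

theorem okQ_okP {b r mm N e T : ℕ} {L : List Blk} {P D : List ℕ} {lo hi : ℕ}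
    (h : okQ b r mm N e T L P D lo hi = true) : okP b mm N e T L P D lo hi = true := by
  simp only [okQ, okQ1, Bool.cond_false_right, Bool.and_eq_true] at h
  exact h.2

theorem okQ_okd {b r mm N e T : ℕ} {L : List Blk} {P D : List ℕ} {lo hi : ℕ}
    (h : okQ b r mm N e T L P D lo hi = true) :
    okd (Nat.mul (Nat.sub (Nat.pow 2 b) (Nat.pow 2 r)) (on b (nd L)))
      (Nat.mul (Nat.sub (Nat.pow 2 (Nat.succ b)) (Nat.pow 2 (Nat.succ r))) (on b (nd L)))
      (List.take (Nat.sub hi lo) (List.drop lo (vv b N L))) = true := by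
  simp only [okQ, okQ1, Bool.cond_false_right, Bool.and_eq_true] at h
  exact h.1

/-- the rows `lo ≤ i < hi` have passed the check -/
def RowsQ (b r mm N e T : ℕ) (L : List Blk) (P D : List ℕ) (lo hi : ℕ) : Prop :=
  ∀ i, lo ≤ i → i < hi → ∃ l h, l ≤ i ∧ i < h ∧ okQ b r mm N e T L P D l h = true

theorem rows_q {b r mm N e T : ℕ} {L : List Blk} {P D : List ℕ} {lo hi : ℕ}
    (h : okQ b r mm N e T L P D lo hi = true) : RowsQ b r mm N e T L P D lo hi := fun _ h1 h2 => ⟨lo, hi, h1, h2, h⟩

theorem RowsQ.trans {b r mm N e T : ℕ} {L : List Blk} {P D : List ℕ} {lo mi hi : ℕ}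
    (h : RowsQ b r mm N e T L P D lo mi) (k : RowsQ b r mm N e T L P D mi hi) : RowsQ b r mm N e T L P D lo hi := by
  intro i h1 h2
  rcases lt_or_ge i mi with h3 | h3
  · exact h i h1 h3
  · exact k i h3 h2

theorem okd_iff (C H : ℕ) (l : List ℕ) :
    okd C H l = true ↔ ∀ i < l.length, C ≤ l.getD i 0 ∧ Nat.land (l.getD i 0 - C) H = 0 := by
  induction l with
  | nil => simp [okd]
  | cons x l ih =>
    simp only [okd, Bool.cond_false_right, Bool.and_eq_true]
    rw [ih]
    constructor
    · rintro ⟨h1, h2, h3⟩ i hi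
      cases i with
      | zero => exact ⟨Nat.le_of_ble_eq_true h1, Nat.eq_of_beq_eq_true h2⟩
      | succ i => exact h3 i (by simpa using hi)
    · intro h
      have h0 := h 0 (by simp)
      refine ⟨Nat.ble_eq_true_of_le h0.1, ?_, fun i hi => ?_⟩
      · have h2 : Nat.land (x - C) H = 0 := h0.2
        show Nat.beq (Nat.land (x - C) H) 0 = true
        rw [h2]
        rfl
      · exact h (i + 1) (by simpa using hi)

/-- **soundness** -/
theorem sound_q {b r mm N e T : ℕ} {L : List Blk} {P D : List ℕ} (h0 : okC b r mm N e L = true)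
    (hR : RowsQ b r mm N e T L P D 0 N) (v : ℕ → ℝ) :
    ((T : ℝ) - N * (e + 1)) * sqv N v ≤ (L.map (Blk.val b N v)).sum + dgv N P D v := by
  simp only [okC, Bool.cond_false_right, Bool.and_eq_true] at h0
  obtain ⟨h1, h2, h3, h4, h5, h7, h8⟩ := h0
  have w8 : (vv b N L).length = N := Nat.eq_of_beq_eq_true h8
  refine sound_parts (r := r) (mm := mm) (e := e) ?_ (fun i h1 h2 => ?_) v
  · simp only [ok0, ok01, Bool.cond_false_right, Bool.and_eq_true]
    refine ⟨h1, h2, h3, h4, h5, h7, h8, ?_⟩
    rw [okd_iff]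
    intro i hi
    rw [w8] at hi
    obtain ⟨lo, hi', l1, l2, hP⟩ := hR i (Nat.zero_le _) hi
    obtain ⟨q, rfl⟩ : ∃ q, i = lo + q := ⟨i - lo, by omega⟩
    have hk := (okd_iff _ _ _).1 (okQ_okd hP)
    have hlen : (List.take (Nat.sub hi' lo) (List.drop lo (vv b N L))).length = min (hi' - lo) (N - lo) := by
      rw [List.length_take, List.length_drop, w8]
      rfl
    have hq := hk q (by rw [hlen]; omega)
    rw [getD_take' _ _ _ (show q < Nat.sub hi' lo from by show q < hi' - lo; omega), getD_drop'] at hq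
    exact hq
  · obtain ⟨l, h, k1, k2, k3⟩ := hR i h1 h2
    exact ⟨l, h, k1, k2, okQ_okP k3⟩

end Helper60.SH
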