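import Pool.Agent.Helper25.SH.Mat

/-!
# Two lemmas for the kernel check of quadratic forms (helper25's `Mat.lean`)

`out_spec`: what the double recursion `out` checks. `form_ge`: small off-diagonal entries and a large diagonal
bound a symmetric integer form from below.
-/

set_option autoImplicit false

namespace Helper60.SH

open Helper25.SH.Mat Helper95.SH

/-- the inner recursion -/
theorem inn_spec {s M e X : ℕ} {V : List ℕ} (h : inn s M e X V = true) :
    ∀ j < V.length, (mid s M X (V.getD j 0) + e) % M ≤ 2 * e := by
  induction V with
  | nil => intro j hj; simp at hj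
  | cons Y l ih =>
    have h' : (bif Nat.ble (Nat.mod (Nat.add (mid s M X Y) e) M) (Nat.mul 2 e) then inn s M e X l else false) = true := h
    rw [Bool.cond_eq_ite] at h'
    split_ifs at h' with hb
    intro j hj
    cases j with
    | zero => exact Nat.le_of_ble_eq_true hb
    | succ j =>
      rw [List.getD_cons_succ]
      exact ih h' j (by simpa using hj)

/-- the outer recursion -/
theorem out_spec {b s M e T : ℕ} {U V P D : List ℕ} (h : Helper25.SH.Mat.out b s M e T U V P D = true) :
    U.length = V.length ∧
      (∀ i < U.length, dia b T (P.getD i 0) (D.getD i 0) (mid s M (U.getD i 0) (V.getD i 0)) = true) ∧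
      (∀ i j, i < j → j < U.length → (mid s M (U.getD i 0) (V.getD j 0) + e) % M ≤ 2 * e) := by
  induction U generalizing V P D with
  | nil =>
    cases V with
    | nil =>
      refine ⟨rfl, ?_, ?_⟩
      · intro i hi; simp at hi
      · intro i j _ hj; simp at hj
    | cons Y V =>
      exact absurd h (by simp [Helper25.SH.Mat.out])
  | cons X U ih =>
    cases V with
    | nil => exact absurd h (by simp [Helper25.SH.Mat.out])
    | cons Y V =>
      cases P with
      | nil => exact absurd h (by simp [Helper25.SH.Mat.out])
      | cons p P =>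
        cases D with
        | nil => exact absurd h (by simp [Helper25.SH.Mat.out])
        | cons d D =>
          have h' : (bif dia b T p d (mid s M X Y) then
            (bif inn s M e X V then Helper25.SH.Mat.out b s M e T U V P D else false) else false) = true := h
          rw [Bool.cond_eq_ite, Bool.cond_eq_ite] at h'
          split_ifs at h' with h1 h2
          obtain ⟨i1, i2, i3⟩ := ih h'
          have i4 := inn_spec h2
          refine ⟨by simp [i1], ?_, ?_⟩
          · intro i hi
            cases i with
            | zero => exact h1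
            | succ i =>
              simp only [List.getD_cons_succ]
              exact i2 i (by simpa using hi)
          · intro i j hij hj
            cases j with
            | zero => omega
            | succ j =>
              cases i with
              | zero =>
                simp only [List.getD_cons_succ, List.getD_cons_zero]
                refine i4 j ?_
                rw [← i1]
                simpa using hj
              | succ i =>
                simp only [List.getD_cons_succ]
                exact i3 i j (by omega) (by simpa using hj)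

/-- small off-diagonal entries, large diagonal -/
theorem form_ge {N e T : ℕ} {P D : List ℕ} (g : ℕ → ℕ → ℤ) (hs : ∀ i j, g i j = g j i)
    (ho : ∀ i j, i < j → j < N → |g i j| ≤ e + 1)
    (hd : ∀ i < N, (T : ℤ) + D.getD i 0 ≤ g i i + P.getD i 0) (v : ℕ → ℝ) :
    ((T : ℝ) - N * (e + 1)) * sqv N v ≤
      (∑ i ∈ Finset.range N, ∑ j ∈ Finset.range N, (g i j : ℝ) * (v i * v j)) + dgv N P D v := by
  have ho' : ∀ i < N, ∀ j < N, i ≠ j → |(g i j : ℝ)| ≤ e + 1 := by
    intro i hi j hj hij
    have h : |g i j| ≤ e + 1 := by
      rcases lt_or_gt_of_ne hij with h | h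
      · exact ho i j h hj
      · rw [hs]
        exact ho j i h hi
    have h2 : ((|g i j| : ℤ) : ℝ) ≤ ((e + 1 : ℤ) : ℝ) := by exact_mod_cast h
    push_cast at h2
    exact h2
  have key : ∀ i ∈ Finset.range N, ∀ j ∈ Finset.range N,
      (if i = j then ((g i i : ℝ) + (e + 1)) * v i ^ 2 else 0) - (e + 1) * ((v i ^ 2 + v j ^ 2) / 2) ≤
        (g i j : ℝ) * (v i * v j) := by
    intro i hi j hj
    split_ifs with h
    · subst h
      apply le_of_eq
      ring
    · have h1 := ho' i (Finset.mem_range.1 hi) j (Finset.mem_range.1 hj) h
      have h2 : |(g i j : ℝ) * (v i * v j)| ≤ (e + 1) * ((v i ^ 2 + v j ^ 2) / 2) := by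
        rw [abs_mul]
        refine mul_le_mul h1 ?_ (abs_nonneg _) (by positivity)
        rw [abs_le]
        constructor <;> nlinarith [sq_nonneg (v i + v j), sq_nonneg (v i - v j)]
      have h3 := neg_abs_le ((g i j : ℝ) * (v i * v j))
      linarith
  have s1 := Finset.sum_le_sum fun i hi => Finset.sum_le_sum (key i hi)
  have s2 : ∑ i ∈ Finset.range N, ∑ j ∈ Finset.range N,
      ((if i = j then ((g i i : ℝ) + (e + 1)) * v i ^ 2 else 0) - (e + 1) * ((v i ^ 2 + v j ^ 2) / 2)) =
      (∑ i ∈ Finset.range N, ((g i i : ℝ) + (e + 1)) * v i ^ 2) - N * (e + 1) * sqv N v := by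
    simp only [Finset.sum_sub_distrib, ← Finset.mul_sum]
    congr 1
    · refine Finset.sum_congr rfl fun i hi => ?_
      rw [Finset.sum_ite_eq, if_pos hi]
    · unfold sqv
      simp only [← Finset.sum_div, Finset.sum_add_distrib, Finset.sum_const, Finset.card_range, nsmul_eq_mul,
        ← Finset.mul_sum]
      ring
  rw [s2] at s1
  have s3 : (T : ℝ) * sqv N v ≤ (∑ i ∈ Finset.range N, ((g i i : ℝ) + (e + 1)) * v i ^ 2) + dgv N P D v := by
    unfold sqv dgv
    rw [Finset.mul_sum, ← Finset.sum_add_distrib]
    refine Finset.sum_le_sum fun i hi => ?_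
    have h1 := hd i (Finset.mem_range.1 hi)
    have h2 : (((T : ℤ) + D.getD i 0 : ℤ) : ℝ) ≤ ((g i i + P.getD i 0 : ℤ) : ℝ) := by exact_mod_cast h1
    push_cast at h2
    have h3 : 0 ≤ v i ^ 2 := sq_nonneg _
    have h4 : (0 : ℝ) ≤ e := Nat.cast_nonneg _
    nlinarith [mul_nonneg h3 h4, mul_nonneg h3 (sub_nonneg.2 h2)]
  linarith

end Helper60.SH
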